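import Pool.Agent.L7h16.SV.Fam
import Pool.Agent.Results.MP_892e4c_nt.AlmostAllPerturbations

/-!
# Counting the exceptional quadratic perturbations of polynomials for the Liouville function (helper16)
-/

set_option autoImplicit false

namespace Pool.Agent.L7h16.CH

open Finset Filter Polynomial
open Pool.Agent.L7h16.SV (Sparse)
open Pool.Agent.Results.MP_892e4c_nt.AlmostAllPerturbations (lam f)

variable {k : ℕ}

/-- the values `P_i(m) + a_i m² + b_i m`, where `v = (a_1, …, a_k, b_1, …, b_k)` -/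
noncomputable def value (P : Fin k → ℤ[X]) (v : Fin (k + k) → ℤ) (i : Fin k) (m : ℕ) : ℤ :=
  (P i).eval (m : ℤ) + v (Fin.castAdd k i) * (m : ℤ) ^ 2 + v (Fin.natAdd k i) * (m : ℤ)

open Classical in
/-- In all windows `(u, w]` of `[1, X]` and all residue classes of all moduli `q ≤ (log X) ^ U`: the products of the
values of the Liouville function at the `f_i(m) = P_i(m) + a_i m² + b_i m`, `i ∈ I`, cancel, and every pattern of signs of the
`λ(f_i(m))` occurs with the expected frequency, up to an error `X / (log X) ^ U` -/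
def Chowla (P : Fin k → ℤ[X]) (U X : ℕ) (v : Fin (k + k) → ℤ) : Prop :=
  ∀ u w : ℕ, u ≤ w → w ≤ X → ∀ q r : ℕ, r < q → (q : ℝ) ≤ Real.log X ^ U →
    (∀ I : Finset (Fin k), I.Nonempty →
      |∑ m ∈ (Ioc u w).filter (fun m => m ≡ r [MOD q]), ∏ i ∈ I, lam (value P v i m)| ≤ X / Real.log X ^ U) ∧
    ∀ ε : Fin k → ℝ, (∀ i, ε i = 1 ∨ ε i = -1) →
      |(((Ioc u w).filter (fun m => m ≡ r [MOD q] ∧ ∀ i, lam (value P v i m) = ε i)).card : ℝ) -
        (1 / 2) ^ k * (((Ioc u w).filter (fun m => m ≡ r [MOD q])).card : ℝ)| ≤ X / Real.log X ^ U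

lemma eval_bound (P : ℤ[X]) {n : ℕ} (hP : P.natDegree ≤ n) : ∃ M : ℕ, ∀ m : ℕ, 1 ≤ m → |P.eval (m : ℤ)| ≤ (M : ℤ) * (m : ℤ) ^ n := by
  refine ⟨∑ i ∈ range (n + 1), (P.coeff i).natAbs, fun m hm => ?_⟩
  rw [eval_eq_sum_range' (by omega : P.natDegree < n + 1)]
  push_cast
  rw [sum_mul]
  refine (abs_sum_le_sum_abs _ _).trans (sum_le_sum fun i hi => ?_)
  rw [abs_mul, abs_pow, Nat.abs_cast]
  refine mul_le_mul_of_nonneg_left ?_ (abs_nonneg _)
  have h1 : i ≤ n := by rw [mem_range] at hi; omega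
  exact pow_le_pow_right₀ (by exact_mod_cast hm) h1

/-- the shifted coefficients -/
def sh (c c' : ℕ) (v : Fin (k + k) → ℤ) (i : Fin k) : ℕ × ℕ :=
  ((v (Fin.castAdd k i) + c).toNat, (v (Fin.natAdd k i) + c').toNat)

/-- the exponents of the sizes of the coefficients -/
def dd (k e : ℕ) : Fin (k + k) → ℕ := Fin.append (fun _ : Fin k => e) (fun _ : Fin k => e + 1)

lemma dd_sum (k e : ℕ) : ∑ j, dd k e j = k * (2 * e + 1) := by
  unfold dd
  rw [Fin.sum_univ_add]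
  simp only [Fin.append_left, Fin.append_right, sum_const, card_univ, Fintype.card_fin, smul_eq_mul]
  ring

lemma dd_one {k e : ℕ} (he : 1 ≤ e) (j : Fin (k + k)) : 1 ≤ dd k e j := by
  unfold dd
  refine Fin.addCases (fun i => ?_) (fun i => ?_) j
  · rw [Fin.append_left]; exact he
  · rw [Fin.append_right]; omega

/-- **The exceptional perturbations.** -/
theorem sparse {e : ℕ} (he : 1 ≤ e) (P : Fin k → ℤ[X]) (hP : ∀ i, (P i).natDegree ≤ e + 2) (U : ℕ) :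
    Sparse (dd k e) (fun X v => ¬ Chowla P U X v) := by
  classical
  intro B V
  choose M hM using fun i => eval_bound (P i) (hP i)
  obtain ⟨M₀, hM₀⟩ : ∃ M₀ : ℕ, ∀ i, M i ≤ M₀ := ⟨∑ i, M i, fun i => single_le_sum (f := M) (fun _ _ => Nat.zero_le _) (mem_univ i)⟩
  obtain ⟨K, hK⟩ : ∃ K, K = 2 * U + e + 4 := ⟨_, rfl⟩
  obtain ⟨U₁, hU₁⟩ : ∃ U₁, U₁ = V + U + 1 := ⟨_, rfl⟩
  obtain ⟨B₀, hB₀⟩ : ∃ B₀, B₀ = B + 1 := ⟨_, rfl⟩
  obtain ⟨C, x₀, hres⟩ := Pool.Agent.Results.MP_892e4c_nt.AlmostAllPerturbations.result k U₁ K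
  -- large `X`
  have hlog : ∀ᶠ X : ℕ in atTop, Real.log X ^ C ≤ X := by
    have h1 := (isLittleO_log_rpow_rpow_atTop (C : ℝ) (s := 1) one_pos).bound (c := 1) one_pos
    have h2 := tendsto_natCast_atTop_atTop (R := ℝ) |>.eventually h1
    filter_upwards [h2, eventually_ge_atTop 3] with X hX hX3
    have h3 : (0 : ℝ) ≤ Real.log X := Real.log_natCast_nonneg _
    rw [Real.rpow_natCast, Real.rpow_one, one_mul, Real.norm_of_nonneg (by positivity), Real.norm_of_nonneg (by positivity)] at hX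
    exact hX
  have hlog2 : ∀ᶠ X : ℕ in atTop, ((M₀ + 4 * B₀ + 4 + (9 * B₀ ^ 2) ^ k : ℕ) : ℝ) ≤ Real.log X :=
    (Real.tendsto_log_atTop.comp (tendsto_natCast_atTop_atTop (R := ℝ))).eventually_ge_atTop _
  obtain ⟨X₁, hX₁⟩ := eventually_atTop.1 (hlog.and hlog2)
  refine ⟨max (max X₁ x₀) (3 * B₀ + 3), fun X hX => ?_⟩
  obtain ⟨hXC, hXL⟩ := hX₁ X (((le_max_left _ _).trans (le_max_left _ _)).trans hX)
  have hx₀ : x₀ ≤ X := ((le_max_right _ _).trans (le_max_left _ _)).trans hX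
  have hXB : 3 * B₀ + 3 ≤ X := (le_max_right _ _).trans hX
  have hX1 : 1 ≤ X := by omega
  obtain ⟨L, hL⟩ : ∃ L, L = Real.log X := ⟨_, rfl⟩
  rw [← hL] at hXC hXL ⊢
  have hLM : (M₀ : ℝ) + 4 * B₀ + 4 ≤ L := by
    push_cast at hXL
    have : (0 : ℝ) ≤ (9 * (B₀ : ℝ) ^ 2) ^ k := by positivity
    linarith
  have hLk : (9 * (B₀ : ℝ) ^ 2) ^ k ≤ L := by
    push_cast at hXL
    have h1 : (0 : ℝ) ≤ M₀ := Nat.cast_nonneg _
    have h2 : (0 : ℝ) ≤ B₀ := Nat.cast_nonneg _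
    linarith
  have hB1 : 1 ≤ B₀ := by omega
  have hB1r : (1 : ℝ) ≤ B₀ := by exact_mod_cast hB1
  have hM0r : (0 : ℝ) ≤ M₀ := Nat.cast_nonneg _
  have hL4 : 4 ≤ L := by linarith
  have hL0 : 0 < L := by linarith
  have hXr : (1 : ℝ) ≤ X := by exact_mod_cast hX1
  have hXe : (1 : ℝ) ≤ (X : ℝ) ^ e := one_le_pow₀ hXr
  have hXe1 : (1 : ℝ) ≤ (X : ℝ) ^ (e + 1) := one_le_pow₀ hXr
  obtain ⟨c, hc⟩ : ∃ c : ℕ, c = B₀ * X ^ e + 1 := ⟨_, rfl⟩
  obtain ⟨c', hc'⟩ : ∃ c' : ℕ, c' = B₀ * X ^ (e + 1) + 1 := ⟨_, rfl⟩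
  obtain ⟨D, hD⟩ : ∃ D : ℕ, D = 2 * B₀ * X ^ e + 1 := ⟨_, rfl⟩
  obtain ⟨B', hB'⟩ : ∃ B' : ℕ, B' = 2 * B₀ * X ^ (e + 1) + 1 := ⟨_, rfl⟩
  have hDr : (D : ℝ) = 2 * B₀ * X ^ e + 1 := by rw [hD]; push_cast; ring
  have hBr : (B' : ℝ) = 2 * B₀ * X ^ (e + 1) + 1 := by rw [hB']; push_cast; ring
  have hLK1 : L ≤ L ^ K := le_self_pow₀ (by linarith) (by omega)
  have hXee : (X : ℝ) ^ (e + 1) = X ^ e * X := pow_succ _ _
  have hDle : (D : ℝ) ≤ 3 * B₀ * X ^ e := by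
    rw [hDr]
    nlinarith
  have hBle : (B' : ℝ) ≤ 3 * B₀ * X ^ (e + 1) := by
    rw [hBr]
    nlinarith
  -- the conditions
  have c1 : L ^ C ≤ D := by
    have h1 : (X : ℝ) ≤ X ^ e := le_self_pow₀ hXr (by omega)
    rw [hDr]
    nlinarith
  have c2 : (D : ℝ) ≤ (X : ℝ) ^ K := by
    have h1 : (3 * B₀ : ℝ) ≤ X := by
      have : ((3 * B₀ : ℕ) : ℝ) ≤ X := by exact_mod_cast (by omega : 3 * B₀ ≤ X)
      push_cast at this
      exact this
    calc (D : ℝ) ≤ 3 * B₀ * X ^ e := hDle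
      _ ≤ X * X ^ e := by gcongr
      _ = X ^ (e + 1) := by rw [hXee]; ring
      _ ≤ X ^ K := pow_le_pow_right₀ hXr (by omega)
  have c3 : (D : ℝ) * X ≤ B' * L ^ K := by
    have h1 : (D : ℝ) * X ≤ 2 * B' := by
      rw [hDr, hBr, hXee]
      nlinarith [mul_nonneg (by linarith : (0 : ℝ) ≤ B₀ - 1) (by positivity : (0 : ℝ) ≤ (X : ℝ) ^ e * X),
        mul_nonneg (by linarith : (0 : ℝ) ≤ (X : ℝ) ^ e - 1) (by linarith : (0 : ℝ) ≤ (X : ℝ))]
    have h2 : 2 * (B' : ℝ) ≤ B' * L ^ K := by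
      have h3 : (0 : ℝ) ≤ B' := Nat.cast_nonneg _
      nlinarith
    linarith
  have c4 : (B' : ℝ) ≤ D * X * L ^ K := by
    have h1 : (B' : ℝ) ≤ D * X := by
      rw [hDr, hBr, hXee]
      nlinarith
    have h2 : (D : ℝ) * X ≤ D * X * L ^ K := by
      have h3 : (0 : ℝ) ≤ D * X := by positivity
      nlinarith
    linarith
  -- the sequences
  obtain ⟨s, hs⟩ : ∃ s : Fin k → ℕ → ℤ, s = fun (i : Fin k) (m : ℕ) => (P i).eval (m : ℤ) - (c : ℤ) * (m : ℤ) ^ 2 - (c' : ℤ) * (m : ℤ) := ⟨_, rfl⟩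
  have c5 : ∀ i, ∀ m ∈ Icc 1 X, ((|s i m| : ℤ) : ℝ) ≤ B' * X * L ^ K := by
    intro i m hm
    rw [mem_Icc] at hm
    have h1 := hM i m hm.1
    have h2 : |s i m| ≤ (M₀ : ℤ) * (X : ℤ) ^ (e + 2) + (c : ℤ) * (X : ℤ) ^ 2 + (c' : ℤ) * (X : ℤ) := by
      rw [hs]
      simp only
      have hm2 : (m : ℤ) ≤ X := by exact_mod_cast hm.2
      have e1 : |(P i).eval (m : ℤ)| ≤ (M₀ : ℤ) * (X : ℤ) ^ (e + 2) := by
        refine h1.trans ?_
        have h3 : ((M i : ℕ) : ℤ) ≤ M₀ := by exact_mod_cast hM₀ i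
        gcongr
      have e2 : |(c : ℤ) * (m : ℤ) ^ 2| ≤ (c : ℤ) * (X : ℤ) ^ 2 := by
        rw [abs_of_nonneg (by positivity)]
        gcongr
      have e3 : |(c' : ℤ) * (m : ℤ)| ≤ (c' : ℤ) * (X : ℤ) := by
        rw [abs_of_nonneg (by positivity)]
        gcongr
      have e4 := abs_sub ((P i).eval (m : ℤ) - (c : ℤ) * (m : ℤ) ^ 2) ((c' : ℤ) * (m : ℤ))
      have e5 := abs_sub ((P i).eval (m : ℤ)) ((c : ℤ) * (m : ℤ) ^ 2)
      linarith
    have h3 : ((|s i m| : ℤ) : ℝ) ≤ M₀ * (X : ℝ) ^ (e + 2) + (c : ℝ) * (X : ℝ) ^ 2 + (c' : ℝ) * X := by exact_mod_cast h2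
    have h4 : (c : ℝ) = B₀ * X ^ e + 1 := by rw [hc]; push_cast; ring
    have h5 : (c' : ℝ) = B₀ * X ^ (e + 1) + 1 := by rw [hc']; push_cast; ring
    have e6 : (X : ℝ) ^ (e + 2) = X ^ (e + 1) * X := pow_succ _ _
    have h6 : M₀ * (X : ℝ) ^ (e + 2) + (c : ℝ) * (X : ℝ) ^ 2 + (c' : ℝ) * X ≤ (M₀ + 2 * B₀ + 2) * (X ^ (e + 1) * X) := by
      rw [h4, h5, e6]
      have h7 : (X : ℝ) ^ 2 ≤ X ^ (e + 1) * X := by
        rw [← pow_succ]
        exact pow_le_pow_right₀ hXr (by omega)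
      have h8 : (X : ℝ) ≤ X ^ (e + 1) * X := le_mul_of_one_le_left (by linarith) hXe1
      have h9 : (X : ℝ) ^ e * X ^ 2 = X ^ (e + 1) * X := by ring
      nlinarith
    have h7 : (M₀ + 2 * B₀ + 2) * ((X : ℝ) ^ (e + 1) * X) ≤ B' * X * L ^ K := by
      have h8 : (X : ℝ) ^ (e + 1) ≤ B' := by rw [hBr]; nlinarith
      have h9 : (M₀ + 2 * B₀ + 2 : ℝ) ≤ L ^ K := by linarith
      calc (M₀ + 2 * B₀ + 2) * ((X : ℝ) ^ (e + 1) * X) ≤ L ^ K * (B' * X) := by gcongr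
        _ = _ := by ring
    linarith
  -- the weights
  obtain ⟨Q, hQ⟩ : ∃ Q : ℕ, Q = ⌊L ^ U⌋₊ + 1 := ⟨_, rfl⟩
  have hQ2 : (Q : ℝ) ≤ 2 * L ^ U := by
    have h1 : (⌊L ^ U⌋₊ : ℝ) ≤ L ^ U := Nat.floor_le (by positivity)
    have h2 : 1 ≤ L ^ U := one_le_pow₀ (by linarith)
    rw [hQ]
    push_cast
    linarith
  have hN : ((Q * Q : ℕ) : ℝ) ≤ L ^ K := by
    push_cast
    have h1 : (0 : ℝ) ≤ Q := Nat.cast_nonneg _
    calc (Q : ℝ) * Q ≤ (2 * L ^ U) * (2 * L ^ U) := by gcongr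
      _ = 4 * L ^ (2 * U) := by rw [pow_mul', pow_two]; ring
      _ ≤ L * L ^ (2 * U) := by gcongr
      _ = L ^ (2 * U + 1) := by rw [pow_succ]; ring
      _ ≤ L ^ K := pow_le_pow_right₀ (by linarith) (by omega)
  obtain ⟨wt, hwt⟩ : ∃ wt : ℕ → ℕ → ℝ, wt = fun t m => if m ≡ t % Q [MOD t / Q] then 1 else 0 := ⟨_, rfl⟩
  have hw1 : ∀ t m, |wt t m| ≤ 1 := by
    intro t m
    rw [hwt]
    simp only
    split_ifs <;> simp
  have hmain := hres X hx₀ D B' (by rw [← hL]; exact c1) c2 (by rw [← hL]; exact c3) (by rw [← hL]; exact c4) s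
    (by rw [← hL]; exact c5) (Q * Q) (by rw [← hL]; exact hN) wt hw1
  rw [← hL] at hmain
  obtain ⟨Bad, -, hBad, hgood⟩ := hmain
  -- the exceptional set is small
  have hbox : ∀ v : Fin (k + k) → ℤ, (∀ j, |v j| ≤ ((B * X ^ dd k e j : ℕ) : ℤ)) → ∀ i,
      (1 ≤ v (Fin.castAdd k i) + c ∧ v (Fin.castAdd k i) + c ≤ D) ∧ (1 ≤ v (Fin.natAdd k i) + c' ∧ v (Fin.natAdd k i) + c' ≤ B') := by
    intro v hv i
    have h1 := hv (Fin.castAdd k i)
    have h2 := hv (Fin.natAdd k i)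
    unfold dd at h1 h2
    rw [Fin.append_left] at h1
    rw [Fin.append_right] at h2
    have h3 : B * X ^ e ≤ B₀ * X ^ e := Nat.mul_le_mul_right _ (by omega)
    have h4 : B * X ^ (e + 1) ≤ B₀ * X ^ (e + 1) := Nat.mul_le_mul_right _ (by omega)
    have h5 : (D : ℤ) = ((B₀ * X ^ e : ℕ) : ℤ) + c := by rw [hD, hc]; push_cast; ring
    have h6 : (B' : ℤ) = ((B₀ * X ^ (e + 1) : ℕ) : ℤ) + c' := by rw [hB', hc']; push_cast; ring
    have h7 : (c : ℤ) = ((B₀ * X ^ e : ℕ) : ℤ) + 1 := by rw [hc]; push_cast; ring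
    have h8 : (c' : ℤ) = ((B₀ * X ^ (e + 1) : ℕ) : ℤ) + 1 := by rw [hc']; push_cast; ring
    have h9 : ((B * X ^ e : ℕ) : ℤ) ≤ ((B₀ * X ^ e : ℕ) : ℤ) := by exact_mod_cast h3
    have h10 : ((B * X ^ (e + 1) : ℕ) : ℤ) ≤ ((B₀ * X ^ (e + 1) : ℕ) : ℤ) := by exact_mod_cast h4
    rw [abs_le] at h1 h2
    refine ⟨⟨by linarith, by linarith⟩, by linarith, by linarith⟩
  have hcard : ({v : Fin (k + k) → ℤ | (∀ j, |v j| ≤ ((B * X ^ dd k e j : ℕ) : ℤ)) ∧ ¬ Chowla P U X v}.ncard) ≤ #Bad := by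
    rw [← Set.ncard_coe_finset Bad]
    refine Set.ncard_le_ncard_of_injOn (sh c c') ?_ ?_ (Finset.finite_toSet _)
    · rintro v ⟨hv, hC⟩
      rw [mem_coe]
      by_contra hnot
      refine hC ?_
      have hmem : sh c c' v ∈ Fintype.piFinset (fun _ : Fin k => Icc 1 D ×ˢ Icc 1 B') := by
        rw [Fintype.mem_piFinset]
        intro i
        obtain ⟨⟨h1, h2⟩, h3, h4⟩ := hbox v hv i
        unfold sh
        rw [mem_product, mem_Icc, mem_Icc]
        simp only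
        omega
      have hg := hgood _ hmem hnot
      have hval : ∀ i m, f s (sh c c' v) i m = value P v i m := by
        intro i m
        obtain ⟨⟨h1, h2⟩, h3, h4⟩ := hbox v hv i
        unfold f value sh
        simp only
        rw [Int.toNat_of_nonneg (by omega), Int.toNat_of_nonneg (by omega), hs]
        simp only
        ring
      intro u w huw hwX q r hrq hq
      have hqQ : q < Q := by
        rw [hQ]
        refine Nat.lt_succ_of_le (Nat.le_floor ?_)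
        rw [hL]
        exact hq
      have hrQ : r < Q := by omega
      have ht : q * Q + r < Q * Q := by
        calc q * Q + r < q * Q + Q := by omega
          _ = (q + 1) * Q := by ring
          _ ≤ Q * Q := Nat.mul_le_mul_right _ hqQ
      have hdiv : (q * Q + r) / Q = q := by
        rw [mul_comm, Nat.mul_add_div (by omega), Nat.div_eq_of_lt hrQ, add_zero]
      have hmod : (q * Q + r) % Q = r := by
        rw [mul_comm, Nat.mul_add_mod, Nat.mod_eq_of_lt hrQ]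
      have hwq : ∀ m, wt (q * Q + r) m = if m ≡ r [MOD q] then 1 else 0 := by
        intro m
        rw [hwt]
        simp only [hdiv, hmod]
      obtain ⟨g1, g2⟩ := hg (q * Q + r) ht u w huw hwX
      have hU1 : (X : ℝ) / L ^ U₁ ≤ X / Real.log X ^ U := by
        rw [← hL]
        refine div_le_div_of_nonneg_left (by positivity) (by positivity) (pow_le_pow_right₀ (by linarith) (by omega))
      refine ⟨fun I hI => ?_, fun ε hε => ?_⟩
      · refine le_trans (le_of_eq ?_) ((g1 I hI).trans hU1)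
        congr 1
        rw [sum_filter]
        refine sum_congr rfl fun m _ => ?_
        rw [hwq m]
        simp only [hval]
        split_ifs <;> simp
      · refine le_trans (le_of_eq ?_) ((g2 ε hε).trans hU1)
        congr 1
        have e1 : ∑ m ∈ (Ioc u w).filter (fun m => ∀ i, lam (f s (sh c c' v) i m) = ε i), wt (q * Q + r) m =
            (((Ioc u w).filter (fun m => m ≡ r [MOD q] ∧ ∀ i, lam (value P v i m) = ε i)).card : ℝ) := by
          simp only [hwq, hval]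
          rw [← sum_filter, filter_filter, sum_const, nsmul_eq_mul, mul_one]
          congr 2
          ext m
          simp only [mem_filter]
          tauto
        have e2 : ∑ m ∈ Ioc u w, wt (q * Q + r) m = (((Ioc u w).filter (fun m => m ≡ r [MOD q])).card : ℝ) := by
          simp only [hwq]
          rw [← sum_filter, sum_const, nsmul_eq_mul, mul_one]
        rw [e1, e2]
    · rintro v ⟨hv, -⟩ v' ⟨hv', -⟩ heq
      funext j
      refine Fin.addCases (fun i => ?_) (fun i => ?_) j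
      · obtain ⟨⟨h1, h2⟩, h3, h4⟩ := hbox v hv i
        obtain ⟨⟨k1, k2⟩, k3, k4⟩ := hbox v' hv' i
        have h5 := congrArg Prod.fst (congrFun heq i)
        unfold sh at h5
        simp only at h5
        omega
      · obtain ⟨⟨h1, h2⟩, h3, h4⟩ := hbox v hv i
        obtain ⟨⟨k1, k2⟩, k3, k4⟩ := hbox v' hv' i
        have h5 := congrArg Prod.snd (congrFun heq i)
        unfold sh at h5
        simp only at h5
        omega
  refine le_trans (Nat.cast_le.2 hcard) (hBad.trans ?_)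
  rw [dd_sum]
  have h1 : ((D : ℝ) * B') ^ k ≤ L * (X : ℝ) ^ (k * (2 * e + 1)) := by
    calc ((D : ℝ) * B') ^ k ≤ ((3 * B₀ * X ^ e) * (3 * B₀ * X ^ (e + 1))) ^ k := by gcongr
      _ = (9 * (B₀ : ℝ) ^ 2) ^ k * (X : ℝ) ^ (k * (2 * e + 1)) := by
          rw [mul_comm k, pow_mul, ← mul_pow]
          congr 1
          ring
      _ ≤ _ := by gcongr
  calc ((D : ℝ) * B') ^ k / L ^ U₁ ≤ (L * (X : ℝ) ^ (k * (2 * e + 1))) / L ^ U₁ := by gcongr
    _ ≤ (X : ℝ) ^ (k * (2 * e + 1)) / L ^ V := by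
        rw [div_le_div_iff₀ (by positivity) (by positivity)]
        have e1 : L * (X : ℝ) ^ (k * (2 * e + 1)) * L ^ V = (X : ℝ) ^ (k * (2 * e + 1)) * L ^ (V + 1) := by ring
        rw [e1]
        refine mul_le_mul_of_nonneg_left (pow_le_pow_right₀ (by linarith) (by omega)) (by positivity)

end Pool.Agent.L7h16.CH
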